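import Pool.Agent.H843.Km7

/-!
# Kimura-finiteness and the multiplicativity of the numerical dimension

`𝒜` is a `ℚ`-linear, idempotent complete, symmetric monoidal category with duals in which the
endomorphisms of the unit object are the rational multiples of the identity, and `F` is a
realisation: a symmetric monoidal functor to finite-dimensional super vector spaces over a field `K`
of characteristic zero (`SuperRealisation`). The example is the category `NChow(k)_ℚ` of
noncommutative Chow motives with periodic cyclic homology (`K = k`) if the characteristic is zero,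
and with topological periodic cyclic homology (of the base change to the perfect closure) in
positive characteristic; the unit object is `U(k)`, and its endomorphism ring is `K₀(k)_ℚ = ℚ`. The
trace `tr` of an endomorphism of `U(A)` is then the Euler characteristic of the Hochschild homology
of the bimodule.

A morphism is numerically trivial (`NumTrivial`) if all its compositions with morphisms in the other
direction have trace zero. The numerical dimension `numDim M` is the largest trace of an
endomorphism `S` of `M` such that `S ∘ S` is numerically equal to the identity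
(`NumInvolution`). `T M n` is the `n`-th tensor power of `M`, `PowZero ε P n` says that the `n`-th
symmetric (`ε = 1`) or exterior power (`ε = -1`) of `P` is zero, `KimuraFinite M` that `M` is the
direct sum of an object with a vanishing exterior power and one with a vanishing symmetric power,
`NumKimura M n` that this holds for the numerical motive of `M`, with `n`-th powers.
`NumNilpotent M`: the numerically trivial endomorphisms of `M` are nilpotent. `NoPhantomPowers M n`:
no direct summand of `M` has an `n`-th exterior or symmetric power which is not zero but numerically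
zero.

Theorem. (1) `numDim M` is a maximum, it is at most the dimension of the realisation, and it is
supermultiplicative. (2) If `numDim (M^{⊗ n}) = (numDim M)^n` for one `n > numDim M`, then the
numerical motive of `M` is Kimura-finite; if moreover the numerically trivial endomorphisms of
`M^{⊗ n}` are nilpotent, then `M` is Kimura-finite, with `n`-th powers. (3) For each `n > numDim M`,
the object `M` is Kimura-finite if and only if `numDim (M^{⊗ n}) = (numDim M)^n`, the numerically
trivial endomorphisms of `M` are nilpotent and there are no phantom `n`-th powers; then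
`numDim M = dim F(M)`, and this holds for all `n`. (4) All objects of a class which is closed under
`M ↦ M ⊗ M` (for example the class of the `U(A)`) are Kimura-finite if and only if for all of them
the numerically trivial endomorphisms are nilpotent and `numDim (M ⊗ M) = (numDim M)^2`.

Idea of the proof. Let `S` be a numerical involution of `M` of largest trace `d + e`, where `d` and
`-e` are the traces of the parts on which it is `1` and `-1`; then `d` and `e` are natural numbers.
The partial traces show that the `n`-th exterior power of the first and the `n`-th symmetric power of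
the second part have dimension zero, `n > d + e`. If one of them were not numerically zero, its
algebra of endomorphisms modulo numerical equivalence would be semisimple and would contain an
involution with positive trace (division algebras with integral traces). Replacing `S^{⊗ n}` by it
on this direct summand of `M^{⊗ n}` we obtain a numerical involution of trace larger than
`(d + e)^n`, a contradiction.
-/

open CategoryTheory MonoidalCategory Limits BraidedCategory

universe u v w

namespace Pool.Agent.Results.MP_6e5bed_ag.NumericalDimension

open Pool.Agent.TH90.Kim Pool.Agent.TH90.AB Pool.Agent.H843.Km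

/-- Kimura-finiteness is nilpotence and the multiplicativity of the numerical dimension, and can be
tested on one tensor power. -/
theorem result {𝒜 : Type u} [Category.{v} 𝒜] [MonoidalCategory 𝒜] [SymmetricCategory 𝒜]
    [Preadditive 𝒜] [MonoidalPreadditive 𝒜] [Linear ℚ 𝒜] [MonoidalLinear ℚ 𝒜]
    [IsIdempotentComplete 𝒜] [∀ X : 𝒜, HasRightDual X]
    (hunit : ∀ f : 𝟙_ 𝒜 ⟶ 𝟙_ 𝒜, ∃ q : ℚ, f = q • 𝟙 (𝟙_ 𝒜))
    {K : Type w} [Field K] [CharZero K] (F : SuperRealisation 𝒜 K) :
    -- (1) the numerical dimension
    (∀ M : 𝒜, IsGreatest {n : ℕ | ∃ S : M ⟶ M, NumInvolution S ∧ tr S = (n : ℚ) • 𝟙 (𝟙_ 𝒜)}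
      (numDim M)) ∧
    (∀ M : 𝒜, numDim M ≤ Module.finrank K (F.V M)) ∧
    (∀ M N : 𝒜, numDim M * numDim N ≤ numDim (M ⊗ N)) ∧
    -- (2) one tensor power decides
    (∀ (M : 𝒜) (n : ℕ), numDim M < n → numDim (T M n) = numDim M ^ n →
      NumKimura M n ∧ (NumNilpotent (T M n) →
        ∃ P Q, Nonempty (Split M P Q) ∧ PowZero (-1) P n ∧ PowZero 1 Q n)) ∧
    -- (3) the characterisation of Kimura-finite objects
    (∀ (M : 𝒜) (n : ℕ), numDim M < n → (KimuraFinite M ↔
      numDim (T M n) = numDim M ^ n ∧ NumNilpotent M ∧ NoPhantomPowers M n)) ∧
    (∀ M : 𝒜, KimuraFinite M → numDim M = Module.finrank K (F.V M) ∧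
      ∀ n, numDim (T M n) = numDim M ^ n ∧ NoPhantomPowers M n) ∧
    -- (4) classes of objects closed under squares
    ∀ 𝒮 : 𝒜 → Prop, (∀ M, 𝒮 M → 𝒮 (M ⊗ M)) →
      ((∀ M, 𝒮 M → KimuraFinite M) ↔
        ∀ M, 𝒮 M → NumNilpotent M ∧ numDim (M ⊗ M) = numDim M ^ 2) := by
  refine ⟨isGreatest F.toReal hunit, numDim_le F.toReal hunit, mul_numDim_le F.toReal hunit,
    fun M n hn hmul => ⟨numKimura F.toReal hunit hn hmul, kimura_of_nil F.toReal hunit hn hmul⟩,
    fun M n hn => ⟨fun h => ?_, fun h => ?_⟩, fun M h => ?_,
    fun 𝒮 h𝒮 => square_iff F.toReal hunit h𝒮⟩
  · obtain ⟨σ, hσ⟩ := F.toReal.exists_sigma h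
    exact ⟨numDim_T F.toReal hunit hσ n, numNilpotent F.toReal hunit h,
      noPhantom F.toReal hunit h n⟩
  · obtain ⟨P, Q, hS, hP, hQ⟩ := kimura_of_phantom F.toReal hunit hn h.1 h.2.1 h.2.2
    exact ⟨P, Q, hS, ⟨n, hP⟩, ⟨n, hQ⟩⟩
  · obtain ⟨σ, hσ⟩ := F.toReal.exists_sigma h
    exact ⟨numDim_of_par F.toReal hunit hσ, fun n =>
      ⟨numDim_T F.toReal hunit hσ n, noPhantom F.toReal hunit h n⟩⟩

end Pool.Agent.Results.MP_6e5bed_ag.NumericalDimension
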